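import Mathlib

set_option autoImplicit false

namespace Pool.Agent.Results.MP_ea093d_al.InfiniteLattice

/-- Nonempty words over the countably infinite alphabet `ℕ`. -/
abbrev Word : Type := FreeSemigroup ℕ

/-- The value of a word in a semigroup under an assignment of elements to the letters. -/
def val {T : Type} [Semigroup T] (f : ℕ → T) (w : Word) : T := FreeSemigroup.lift f w

/-- The semigroup `T` satisfies the identical inclusion `u ∈ V`: for every assignment the value
of `u` is the value of at least one word of `V`. -/
def Sat (T : Type) [Semigroup T] (u : Word) (V : Set Word) : Prop :=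
  ∀ f : ℕ → T, ∃ v ∈ V, val f u = val f v

/-- A semigroup, as a bundled object. -/
structure Sgp where
  /-- the underlying set -/
  carrier : Type
  /-- the semigroup operation -/
  [str : Semigroup carrier]

attribute [instance] Sgp.str

/-- The class of all semigroups satisfying all the identical inclusions of `Θ`. -/
def Mod (Θ : Set (Word × Set Word)) : Set Sgp :=
  {T | ∀ p ∈ Θ, Sat T.carrier p.1 p.2}

/-- A class of semigroups is an inclusive variety if it is the class of all semigroups
satisfying some given set of identical inclusions. -/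
def IsInclusiveVariety (K : Set Sgp) : Prop := ∃ Θ : Set (Word × Set Word), K = Mod Θ

/-- The inclusive variety generated by `S`: all semigroups satisfying every identical inclusion
that `S` satisfies. -/
def generated (S : Sgp) : Set Sgp := Mod {p | Sat S.carrier p.1 p.2}

lemma val_mul {T : Type} [Semigroup T] (f : ℕ → T) (u v : Word) :
    val f (u * v) = val f u * val f v := by
  unfold val
  exact map_mul _ u v

lemma val_of {T : Type} [Semigroup T] (f : ℕ → T) (x : ℕ) :
    val f (FreeSemigroup.of x) = f x := by
  unfold val
  exact FreeSemigroup.lift_of f x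

/-- The elements of the generating finite semigroup. -/
inductive SE : Type
  | a | b | c | e | z | f
  deriving DecidableEq, Fintype

open SE in
/-- `ab = e`, `cc = e`, `ff = f`, everything else is `z`. -/
def smul : SE → SE → SE
  | a, b => e
  | c, c => e
  | f, f => f
  | _, _ => z

instance : Semigroup SE where
  mul := smul
  mul_assoc := by
    have : ∀ x y w : SE, smul (smul x y) w = smul x (smul y w) := by decide
    exact this

lemma S_mul (x y : SE) : x * y = smul x y := rfl

/-- The elements of the path semigroup with `m` edges. -/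
inductive P (m : ℕ) : Type
  | v (n : ℕ) | e | z | f
  deriving DecidableEq

/-- `v i * v (i+1) = e` for `i + 1 ≤ m`, `f * f = f`, everything else is `z`. -/
def pmul (m : ℕ) : P m → P m → P m
  | .v i, .v j => if j = i + 1 ∧ j ≤ m then .e else .z
  | .f, .f => .f
  | _, _ => .z

lemma pmul_eq_f {m : ℕ} {x y : P m} : pmul m x y = .f ↔ x = .f ∧ y = .f := by
  cases x <;> cases y <;> simp [pmul]
  split_ifs <;> simp

lemma pmul_assoc (m : ℕ) (x y w : P m) : pmul m (pmul m x y) w = pmul m x (pmul m y w) := by
  have h1 : ∀ p q : P m, pmul m p q = .f ∨ pmul m p q = .e ∨ pmul m p q = .z := by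
    intro p q
    cases p <;> cases q <;> (try simp [pmul])
    omega
  have hz1 : ∀ p : P m, pmul m .z p = .z := by intro p; cases p <;> rfl
  have hz2 : ∀ p : P m, pmul m p .z = .z := by intro p; cases p <;> rfl
  have he1 : ∀ p : P m, pmul m .e p = .z := by intro p; cases p <;> rfl
  have he2 : ∀ p : P m, pmul m p .e = .z := by intro p; cases p <;> rfl
  have key : ∀ p q r : P m, pmul m (pmul m p q) r = if p = .f ∧ q = .f ∧ r = .f then .f else .z := by
    intro p q r
    rcases h1 p q with h | h | h
    · obtain ⟨rfl, rfl⟩ := pmul_eq_f.1 h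
      cases r <;> simp [pmul]
    · rw [h, he1, if_neg]
      rintro ⟨rfl, rfl, rfl⟩
      simp [pmul] at h
    · rw [h, hz1, if_neg]
      rintro ⟨rfl, rfl, rfl⟩
      simp [pmul] at h
  have key2 : ∀ p q r : P m, pmul m p (pmul m q r) = if p = .f ∧ q = .f ∧ r = .f then .f else .z := by
    intro p q r
    rcases h1 q r with h | h | h
    · obtain ⟨rfl, rfl⟩ := pmul_eq_f.1 h
      cases p <;> simp [pmul]
    · rw [h, he2, if_neg]
      rintro ⟨rfl, rfl, rfl⟩
      simp [pmul] at h
    · rw [h, hz2, if_neg]
      rintro ⟨rfl, rfl, rfl⟩
      simp [pmul] at h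
  rw [key, key2]

instance (m : ℕ) : Semigroup (P m) where
  mul := pmul m
  mul_assoc := pmul_assoc m

lemma P_mul (m : ℕ) (x y : P m) : x * y = pmul m x y := rfl

/-- every word is a letter, a product of two letters, or has length at least three -/
lemma word_cases (u : Word) : (∃ x, u = FreeSemigroup.of x) ∨
    (∃ x y, u = FreeSemigroup.of x * FreeSemigroup.of y) ∨
    (∃ x y w, u = FreeSemigroup.of x * FreeSemigroup.of y * w) := by
  induction u using FreeSemigroup.recOnMul with
  | ih1 x => exact Or.inl ⟨x, rfl⟩
  | ih2 x w _ ih =>
    rcases ih with ⟨y, rfl⟩ | ⟨y, t, rfl⟩ | ⟨y, t, r, rfl⟩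
    · exact Or.inr (Or.inl ⟨x, y, rfl⟩)
    · exact Or.inr (Or.inr ⟨x, y, FreeSemigroup.of t, by simp only [mul_assoc]⟩)
    · exact Or.inr (Or.inr ⟨x, y, FreeSemigroup.of t * r, by simp only [mul_assoc]⟩)

lemma S_triple (x y w : SE) : x * y * w = if x = .f ∧ y = .f ∧ w = .f then .f else .z := by
  have : ∀ x y w : SE, smul (smul x y) w = if x = .f ∧ y = .f ∧ w = .f then .f else .z := by
    decide
  exact this x y w

lemma P_triple {m : ℕ} (x y w : P m) :
    x * y * w = if x = P.f ∧ y = P.f ∧ w = P.f then P.f else P.z := by
  show pmul m (pmul m x y) w = _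
  have hz1 : ∀ p : P m, pmul m .z p = .z := by intro p; cases p <;> rfl
  have he1 : ∀ p : P m, pmul m .e p = .z := by intro p; cases p <;> rfl
  have h1 : pmul m x y = .f ∨ pmul m x y = .e ∨ pmul m x y = .z := by
    cases x <;> cases y <;> (try simp [pmul])
    omega
  rcases h1 with h | h | h
  · obtain ⟨rfl, rfl⟩ := pmul_eq_f.1 h
    cases w <;> simp [pmul]
  · rw [h, he1, if_neg]
    rintro ⟨rfl, rfl, rfl⟩
    simp [pmul] at h
  · rw [h, hz1, if_neg]
    rintro ⟨rfl, rfl, rfl⟩
    simp [pmul] at h

lemma S_ne_a (x y : SE) : x * y ≠ .a := by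
  have : ∀ x y : SE, smul x y ≠ .a := by decide
  exact this x y

lemma S_eq_f (x y : SE) : x * y = .f ↔ x = .f ∧ y = .f := by
  have : ∀ x y : SE, smul x y = .f ↔ x = .f ∧ y = .f := by decide
  exact this x y

lemma val_f_iff {m : ℕ} (φ : ℕ → P m) (ψ : ℕ → SE) (h : ∀ n, ψ n = .f ↔ φ n = P.f) (v : Word) :
    val ψ v = .f ↔ val φ v = P.f := by
  induction v using FreeSemigroup.recOnMul with
  | ih1 x => rw [val_of, val_of]; exact h x
  | ih2 x w h1 h2 =>
    rw [val_mul, val_mul, S_eq_f, h1, h2, P_mul]
    exact pmul_eq_f.symm

lemma key {m : ℕ} (φ : ℕ → P m) (u : Word) :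
    ∃ ψ : ℕ → SE, ∀ v, val ψ u = val ψ v → val φ u = val φ v := by
  rcases word_cases u with ⟨x, rfl⟩ | ⟨x, y, rfl⟩ | ⟨x, y, w, rfl⟩
  · refine ⟨fun n => if n = x then .a else .z, ?_⟩
    intro v hv
    rw [val_of, if_pos rfl] at hv
    rcases word_cases v with ⟨s, rfl⟩ | ⟨s, t, rfl⟩ | ⟨s, t, r, rfl⟩
    · rw [val_of] at hv
      by_cases hs : s = x
      · rw [hs]
      · rw [if_neg hs] at hv
        exact absurd hv (by decide)
    · rw [val_mul] at hv
      exact absurd hv.symm (S_ne_a _ _)
    · rw [val_mul] at hv
      exact absurd hv.symm (S_ne_a _ _)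
  · by_cases hxy : x = y
    · subst hxy
      refine ⟨fun n => if n = x then .c else .z, ?_⟩
      intro v hv
      have hu : val (fun n => if n = x then SE.c else .z) (FreeSemigroup.of x * FreeSemigroup.of x)
          = .e := by
        rw [val_mul, val_of, if_pos rfl]
        rfl
      rw [hu] at hv
      rcases word_cases v with ⟨s, rfl⟩ | ⟨s, t, rfl⟩ | ⟨s, t, r, rfl⟩
      · rw [val_of] at hv
        split_ifs at hv
      · rw [val_mul, val_of, val_of] at hv
        by_cases hs : s = x
        · by_cases ht : t = x
          · rw [hs, ht]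
          · rw [if_pos hs, if_neg ht] at hv
            exact absurd hv (by decide)
        · rw [if_neg hs] at hv
          split_ifs at hv <;> exact absurd hv (by decide)
      · rw [val_mul, val_mul, S_triple] at hv
        split_ifs at hv
    · refine ⟨fun n => if n = x then .a else if n = y then .b else .z, ?_⟩
      intro v hv
      have hu : val (fun n => if n = x then SE.a else if n = y then .b else .z)
          (FreeSemigroup.of x * FreeSemigroup.of y) = .e := by
        rw [val_mul, val_of, val_of, if_pos rfl, if_neg (Ne.symm hxy), if_pos rfl]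
        rfl
      rw [hu] at hv
      rcases word_cases v with ⟨s, rfl⟩ | ⟨s, t, rfl⟩ | ⟨s, t, r, rfl⟩
      · rw [val_of] at hv
        split_ifs at hv
      · rw [val_mul, val_of, val_of] at hv
        by_cases hs : s = x
        · by_cases ht : t = y
          · rw [hs, ht]
          · rw [if_pos hs, if_neg ht] at hv
            split_ifs at hv <;> exact absurd hv (by decide)
        · rw [if_neg hs] at hv
          split_ifs at hv <;> exact absurd hv (by decide)
      · rw [val_mul, val_mul, S_triple] at hv
        split_ifs at hv
  · by_cases hf : val φ (FreeSemigroup.of x * FreeSemigroup.of y * w) = P.f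
    · refine ⟨fun n => if φ n = P.f then .f else .z, ?_⟩
      intro v hv
      have h := val_f_iff φ (fun n => if φ n = P.f then .f else .z) (by
        intro n
        by_cases h : φ n = P.f
        · simp [h]
        · simp [h])
      rw [(h _).2 hf] at hv
      rw [hf, (h v).1 hv.symm]
    · have hz : val φ (FreeSemigroup.of x * FreeSemigroup.of y * w) = P.z := by
        rw [val_mul, val_mul, P_triple] at hf ⊢
        split_ifs at hf with h
        · exact absurd rfl hf
        · rw [if_neg h]
      obtain ⟨ψ, hψ⟩ : ∃ ψ : ℕ → SE, ψ = fun n => if φ n = P.f then .f else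
        if φ n = P.z then .z else .c := ⟨_, rfl⟩
      have h := val_f_iff φ ψ (by
        intro n
        rw [hψ]
        by_cases h : φ n = P.f
        · simp [h]
        · simp only [h, if_false, iff_false]
          split_ifs <;> simp)
      have hzψ : ∀ n, ψ n = .z → φ n = P.z := by
        intro n hn
        rw [hψ] at hn
        simp only at hn
        split_ifs at hn with h1 h2
        exact h2
      have hcases : ∀ n, (ψ n = .f ∧ φ n = P.f) ∨ (ψ n = .z ∧ φ n = P.z) ∨
          (ψ n = .c ∧ φ n ≠ P.f) := by
        intro n
        rw [hψ]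
        simp only
        by_cases h1 : φ n = P.f
        · simp [h1]
        · by_cases h2 : φ n = P.z
          · simp [h2]
          · simp [h1, h2]
      refine ⟨ψ, ?_⟩
      intro v hv
      have hu : val ψ (FreeSemigroup.of x * FreeSemigroup.of y * w) = .z := by
        have h3 := mt (h (FreeSemigroup.of x * FreeSemigroup.of y * w)).1 hf
        rw [val_mul, val_mul, S_triple] at h3 ⊢
        split_ifs at h3 with h4
        · exact absurd rfl h3
        · rw [if_neg h4]
      rw [hu] at hv
      rw [hz]
      rcases word_cases v with ⟨s, rfl⟩ | ⟨s, t, rfl⟩ | ⟨s, t, r, rfl⟩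
      · rw [val_of] at hv ⊢
        exact (hzψ s hv.symm).symm
      · rw [val_mul, val_of, val_of] at hv ⊢
        rcases hcases s with ⟨h1, h2⟩ | ⟨h1, h2⟩ | ⟨h1, h2⟩
        · rcases hcases t with ⟨h3, h4⟩ | ⟨h3, h4⟩ | ⟨h3, h4⟩
          · rw [h1, h3] at hv
            exact absurd hv (by decide)
          · rw [h2, h4]; rfl
          · rw [h2]
            show P.z = pmul m P.f (φ t)
            revert h4
            generalize φ t = q
            intro h4
            cases q with
            | v n => rfl
            | e => rfl
            | z => rfl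
            | f => exact absurd rfl h4
        · rw [h2]
          show P.z = pmul m P.z (φ t)
          generalize φ t = q
          cases q <;> rfl
        · rcases hcases t with ⟨h3, h4⟩ | ⟨h3, h4⟩ | ⟨h3, h4⟩
          · rw [h4]
            show P.z = pmul m (φ s) P.f
            revert h2
            generalize φ s = q
            intro h2
            cases q with
            | v n => rfl
            | e => rfl
            | z => rfl
            | f => exact absurd rfl h2
          · rw [h4]
            show P.z = pmul m (φ s) P.z
            generalize φ s = q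
            cases q <;> rfl
          · rw [h1, h3] at hv
            exact absurd hv (by decide)
      · have h3 : val φ (FreeSemigroup.of s * FreeSemigroup.of t * r) ≠ P.f := by
          intro h4
          rw [(h _).2 h4] at hv
          exact absurd hv (by decide)
        rw [val_mul, val_mul, P_triple] at h3 ⊢
        split_ifs at h3 with h4
        · exact absurd rfl h3
        · rw [if_neg h4]

/-- The bundled finite semigroup. -/
def S0 : Sgp := ⟨SE⟩
/-- The bundled path semigroups. -/
def T0 (m : ℕ) : Sgp := ⟨P m⟩

lemma T0_mem (m : ℕ) : T0 m ∈ generated S0 := by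
  intro p hp φ
  obtain ⟨ψ, hψ⟩ := key (m := m) φ p.1
  obtain ⟨v, hv, h⟩ := hp ψ
  exact ⟨v, hv, hψ v h⟩

/-- the word `z_0 z_1 ... z_k` -/
def W : ℕ → Word
  | 0 => FreeSemigroup.of 0
  | (k + 1) => W k * FreeSemigroup.of (k + 1)

/-- the set of words `z_i z_{i+1}` with `i < k` -/
def V (k : ℕ) : Set Word := {v | ∃ i < k, v = FreeSemigroup.of i * FreeSemigroup.of (i + 1)}

lemma P_fail (m : ℕ) (hm : 2 ≤ m) : ¬ Sat (P m) (W m) (V m) := by
  intro h
  obtain ⟨v, ⟨i, hi, rfl⟩, hv⟩ := h (fun n => P.v n)
  rw [val_mul, val_of, val_of] at hv
  have h1 : (P.v i : P m) * P.v (i + 1) = P.e := by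
    show pmul m (.v i) (.v (i + 1)) = .e
    simp only [pmul]
    rw [if_pos ⟨trivial, hi⟩]
  have h2 : ∀ k, 2 ≤ k → val (T := P m) (fun n => P.v n) (W k) = P.z := by
    intro k hk
    obtain ⟨j, rfl⟩ : ∃ j, k = j + 2 := ⟨k - 2, by omega⟩
    show val (T := P m) (fun n => P.v n) ((W j * FreeSemigroup.of (j + 1)) * FreeSemigroup.of (j + 2)) = P.z
    rw [val_mul, val_mul, val_of, val_of, P_triple, if_neg]
    rintro ⟨-, h3, -⟩
    exact absurd h3 (by simp)
  rw [h2 m hm] at hv
  have h3 : (P.z : P m) = P.e := hv.trans h1
  exact absurd h3 (by simp)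

lemma P_sat (m k : ℕ) (hk : m < k) : Sat (P m) (W k) (V k) := by
  intro φ
  by_contra hcon
  push Not at hcon
  have hcon' : ∀ i < k, val φ (W k) ≠ φ i * φ (i + 1) := by
    intro i hi
    have := hcon _ ⟨i, hi, rfl⟩
    rwa [val_mul, val_of, val_of] at this
  have hzl : ∀ p : P m, p * P.z = P.z := by
    intro p
    show pmul m p .z = .z
    cases p <;> rfl
  have hzr : ∀ p : P m, P.z * p = P.z := by
    intro p
    show pmul m .z p = .z
    cases p <;> rfl
  -- no product z_i z_{i+1} vanishes
  have hz : ∀ i < k, φ i * φ (i + 1) ≠ P.z := by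
    intro i hi h0
    apply hcon' i hi
    rw [h0]
    have : ∀ j, i < j → val φ (W j) = P.z := by
      intro j hj
      induction j with
      | zero => omega
      | succ j ih =>
        show val φ (W j * FreeSemigroup.of (j + 1)) = P.z
        rw [val_mul, val_of]
        by_cases hij : i = j
        · subst hij
          cases i with
          | zero =>
            show val φ (FreeSemigroup.of 0) * φ 1 = P.z
            rw [val_of]; exact h0
          | succ i =>
            show val φ (W i * FreeSemigroup.of (i + 1)) * φ (i + 1 + 1) = P.z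
            rw [val_mul, val_of, mul_assoc, h0, hzl]
        · rw [ih (by omega), hzr]
    exact this k hi
  -- either all letters are f or they form a path
  rcases h0 : φ 0 with n | _ | _ | _
  · have hpath : ∀ j ≤ k, φ j = P.v (n + j) := by
      intro j hj
      induction j with
      | zero => exact h0
      | succ j ih =>
        have h1 := hz j (by omega)
        have h2 := ih (by omega)
        rw [h2] at h1
        revert h1
        show pmul m (.v (n + j)) (φ (j + 1)) ≠ .z → _
        generalize (φ (j + 1)) = q
        cases q with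
        | v l =>
          intro h3
          simp only [pmul] at h3
          split_ifs at h3 with h4
          · rw [h4.1]; rfl
          · exact absurd rfl h3
        | e => intro h3; exact absurd rfl h3
        | z => intro h3; exact absurd rfl h3
        | f => intro h3; exact absurd rfl h3
    have h1 := hz (k - 1) (by omega)
    have h2 := hpath (k - 1) (by omega)
    have h3 := hpath (k - 1 + 1) (by omega)
    rw [h2, h3] at h1
    apply h1
    show pmul m (.v (n + (k - 1))) (.v (n + (k - 1 + 1))) = .z
    simp only [pmul]
    rw [if_neg (by omega)]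
  · apply hz 0 (by omega)
    show pmul m (φ 0) (φ 1) = .z
    rw [h0]
    generalize (φ 1) = q
    cases q <;> rfl
  · apply hz 0 (by omega)
    show pmul m (φ 0) (φ 1) = .z
    rw [h0]
    generalize (φ 1) = q
    cases q <;> rfl
  · have hall : ∀ j ≤ k, φ j = P.f := by
      intro j hj
      induction j with
      | zero => exact h0
      | succ j ih =>
        have h1 := hz j (by omega)
        have h2 := ih (by omega)
        rw [h2] at h1
        revert h1
        show pmul m .f (φ (j + 1)) ≠ .z → _
        generalize (φ (j + 1)) = q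
        cases q with
        | v l => intro h3; exact absurd rfl h3
        | e => intro h3; exact absurd rfl h3
        | z => intro h3; exact absurd rfl h3
        | f => intro h3; rfl
    apply hcon' 0 (by omega)
    have hW : ∀ j ≤ k, val φ (W j) = P.f := by
      intro j hj
      induction j with
      | zero =>
        show val φ (FreeSemigroup.of 0) = P.f
        rw [val_of]; exact h0
      | succ j ih =>
        show val φ (W j * FreeSemigroup.of (j + 1)) = P.f
        rw [val_mul, val_of, ih (by omega), hall (j + 1) hj]
        rfl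
    rw [hW k le_rfl, hall 0 (by omega), hall 1 (by omega)]
    rfl

/-- The main theorem. -/
theorem result : ∃ S : Sgp, Finite S.carrier ∧
    {K : Set Sgp | IsInclusiveVariety K ∧ K ⊆ generated S}.Infinite := by
  refine ⟨S0, (inferInstance : Finite SE), ?_⟩
  refine Set.infinite_of_injective_forall_mem (f := fun m : ℕ => generated (T0 (m + 2))) ?_ ?_
  · have h1 : ∀ i j : ℕ, i < j → generated (T0 (i + 2)) ≠ generated (T0 (j + 2)) := by
      intro i j hij heq
      have h2 : T0 (j + 2) ∈ generated (T0 (j + 2)) := fun p hp => hp
      rw [← heq] at h2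
      exact P_fail (j + 2) (by omega) (h2 (W (j + 2), V (j + 2)) (P_sat (i + 2) (j + 2) (by omega)))
    intro i j hij
    rcases lt_trichotomy i j with h | h | h
    · exact absurd hij (h1 i j h)
    · exact h
    · exact absurd hij.symm (h1 j i h)
  · intro m
    refine ⟨⟨_, rfl⟩, ?_⟩
    intro T hT p hp
    exact hT p (T0_mem (m + 2) p hp)

end Pool.Agent.Results.MP_ea093d_al.InfiniteLattice
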